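import Pool.Agent.Results.MP_787500_nt.AllWeightsMultiquadraticX49
import Pool.Agent.R384.Y.Two
import Pool.Agent.Run7.h359.Twr
import Pool.Agent.Run7.h359.Jnt
import Pool.Agent.Run7.h359.Gng

/-!
# Semistable classes for the powers of the twists of `X_0(49)`: all degrees and all twists

`K = ℚ(√-7)`, `M > 0`. Let `E_M` and `E_{-M}` be the quadratic twists of `X_0(49)` by `M` and by `-M`, two
elliptic curves over `ℚ` with complex multiplication by `ℤ[ω]`, `ω² = ω - 2`. The group `Gal(ℚ̄/K)` acts on the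
`2`-adic Tate module of such a curve `E` by two characters `κ`, `κ'`. For all `N`, `m`, `j` the
representation `H^m(E^N, ℚ_2(j))` of `Gal(ℚ̄/K)` is a direct sum of copies of the characters `κ ^ a κ' ^ b` with
`a = j - s`, `b = j - t`, `s + t = m`, `s, t ≥ 0`. So if `j ≤ 0` then `a ≤ 0` and `b ≤ 0`.

The class consists of the squarefree `D = 1 mod 8` with all prime factors `1 mod 4`. A pair of `M` and of
`ℚ(√d_1, …, √d_n)` is good if all the numbers `M ∏_{i ∈ T} d_i` are, up to squares, numbers `D` of the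
class such that `E_D(ℚ)` is finite and `Ш(E_D/ℚ)` has no element of order two.
* If the pair is good then all the semistable classes of `H¹(L, ℚ_2(κ ^ a κ' ^ b))`, `L = K(√d_1, …, √d_n)`,
  are zero: for `E_M` for **all** integers `a`, `b` with `a + b` odd such that the even one of them is not
  positive, and for `E_{-M}` for all those such that the odd one is not positive. In particular for both curves
  and all `a, b ≤ 0` with `a + b` odd.
* For `L = K` this is also true for all `a`, `b` with `a + b` even which are not both positive.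
* For all `M`, `d_1, …, d_n` of the class (`d_1, …, d_n` independent modulo squares) the pair `(M D, d)` is
  good for **exactly** the proportion `c ^ 2 ^ n` of the `D` of the class, `c = 0.4194…`, and for **exactly** the
  proportion `c ^ 2 ^ n / 4` of **all** the pairs `(a, b)` of integers the number `N = a² + b²` is `1 mod 8` and
  the pair `(M N, d)` is good.
* For every `M` of the class such that `E_M(ℚ)` is finite and `Ш(E_M/ℚ)[2] = 0` there is an infinite tower
  of fields `F_n = ℚ(√D_0, …, √D_{n-1})` of degree `2^n` such that this holds over `F_n(√-7)` for all `n`.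

The problem. For `i = m + 1` and `j ≤ 0` the motivic cohomology `H^i_M(X, ℚ(j))`, of weight `j ≤ 0` and with
`i > 2 j`, is zero (`K_(2 j - i)`). So for `ℓ = 2`, `X = E_M ^ N` and `X = E_{-M} ^ N`, all `N`, and all `j ≤ 0` the
statement `Q1` says that there are no semistable classes, and it is true over `L` (and over `ℚ(√d_1, …, √d_n)`,
the restriction to `L` being injective) for all even `i`, and over `K` and `ℚ` for **all** `i`. (`i = 0`, `j = 0` has
no classes either.) The same holds for the factors `ℚ_2(κ ^ a κ' ^ b)`, as above, with `2 j < i`, `j > 0`, and for the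
other ones the target of the regulator is zero. The semistable classes at the places not above `2` are
unramified, because the weights `-(a + b)` are different from `0` and `-2` (or by the finiteness of the
class number for `a = b = 0`); this is not in the Lean.

The starting file `PowersOfCMCurves` has curves `E_D` over `K`, `D ∈ ℤ[ω]` a product of primes, `D = ± 5 mod 8`, which are
not twists of `X_0(49)` by rational numbers, over `K` only, and an infinite family.
-/

set_option autoImplicit false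

namespace Pool.Agent.Results.MP_76188c_nt.AllTwistsBothSigns

open Pool.Agent.Results.MP_787500_nt.AllWeightsMultiquadraticX49
open Run7.h359.Jnt
open scoped Classical

/-- The curve `E_{-D} : y² + x y = x³ + ((3 D - 1) / 4) x² - 2 D² x + D³` over `ℚ`, the quadratic twist
by `-D` of `X_0(49)`. -/
def Eneg (D : ℕ) : WeierstrassCurve ℚ :=
  { a₁ := 1, a₂ := (3 * (D : ℚ) - 1) / 4, a₃ := 0, a₄ := -2 * (D : ℚ) ^ 2, a₆ := (D : ℚ) ^ 3 }

/-- The character `κ ^ a κ' ^ b`. -/
noncomputable def pw {w : QBar} (κ κ' : Chr w) (a b : ℤ) : Chr w := κ ^ a * κ' ^ b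

/-- The class of `c` in `H¹(L, ℚ_2(κ ^ a κ' ^ b))`, `L` the field fixed by `H`, is unramified outside `2` and
semistable at the places above `2`: at a place where the Hodge–Tate weight (that is `a` at the places
above `ω` and `b` at those above `1 - ω`) is not positive the class is trivial, or unramified if the
character is trivial. If the weight is positive then all the classes are semistable. -/
structure IsSemistable {w : QBar} (H : Sub w) (κ κ' : Chr w) (a b : ℤ) (c : Gal w → ℚ_[2]) : Prop where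
  odd : ∀ (p : ℕ) [Fact p.Prime] (ι : QBar →ₐ[ℚ] PadicAlgCl p), p ≠ 2 →
    TrivialOn H (pw κ κ' a b) (Inr ι) c
  one : a ≤ 0 → ∀ ι : QBar →ₐ[ℚ] PadicAlgCl 2, ‖ι w‖ < 1 →
    TrivialOn H (pw κ κ' a b) (if a = 0 ∧ b = 0 then Inr ι else Dec ι) c
  two : b ≤ 0 → ∀ ι : QBar →ₐ[ℚ] PadicAlgCl 2, ‖ι (1 - w)‖ < 1 →
    TrivialOn H (pw κ κ' a b) (if a = 0 ∧ b = 0 then Inr ι else Dec ι) c

/-- All the semistable classes of `H¹(L, ℚ_2(κ ^ a κ' ^ b))` are zero. -/
def NoClasses {w : QBar} (H : Sub w) (κ κ' : Chr w) (a b : ℤ) : Prop :=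
  ∀ c : Gal w → ℚ_[2], IsCocycle H (pw κ κ' a b) c → IsSemistable H κ κ' a b c →
    TrivialOn H (pw κ κ' a b) Set.univ c

/-- The curve `ED w D` over `K` is elliptic, the Galois group acts on its `2`-adic Tate module by `κ`, `κ'`,
and all the semistable classes of `H¹(K, ℚ_2(κ ^ a κ' ^ b))` are zero for all integers `a`, `b` which are
not both positive, with `a + b` even, and all those of `H¹(L, ℚ_2(κ ^ a κ' ^ b))`, `L = K(√d_1, …, √d_n)`, for
all `a`, `b` with `a + b` odd such that the one of them which has the parity of `ε` is not positive. -/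
def Vanish (D : OK) (ε : ℤ) {n : ℕ} (d : Fin n → ℕ) (w : QBar) : Prop :=
  (ED w D).IsElliptic ∧ ∃ κ κ' : Chr w, TateModule D κ κ' ∧
    (∀ a b : ℤ, Even (a + b) → (a ≤ 0 ∨ b ≤ 0) → NoClasses ⊤ κ κ' a b) ∧
    ∀ s : Fin n → QBar, (∀ i, s i ^ 2 = (d i : QBar)) → ∀ a b : ℤ, Odd (a + b) →
      ((Even (a + ε) ∧ a ≤ 0) ∨ (Even (b + ε) ∧ b ≤ 0)) → NoClasses (GalL w s) κ κ' a b

/-- The curves `E_M` and `E_{-M}` are over `K` isomorphic to the curves `ED w (tw M)` and
`ED w (-tw M)`, for which the semistable classes vanish. -/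
def BothSigns (M : ℕ) {n : ℕ} (d : Fin n → ℕ) : Prop := ∀ w : QBar, w ^ 2 = w - 2 →
  Iso (EK w M) (ED w (tw M)) ∧ Vanish (tw M) 0 d w ∧
  Iso ((Eneg M).map (algebraMap ℚ (K w))) (ED w (-tw M)) ∧ Vanish (-tw M) 1 d w

/-- There is an infinite sequence `D_0, D_1, …` of members of the class such that for all `n` the field
`F_n = ℚ(√D_0, …, √D_{n-1})` has degree `2 ^ n` (no product of some of the `D_i` is a square), and the
semistable classes vanish over `F_n(√-7)`. -/
def Tower (M : ℕ) : Prop :=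
  ∃ D : ℕ → ℕ, (∀ i, Wide (D i)) ∧
    ∀ n : ℕ, Ind (fun i : Fin n => D i) ∧ BothSigns M (fun i : Fin n => D i)

section proof

variable {w : QBar}

/-- the classes of the characters unramified outside two -/
theorem even_part (hw : w ^ 2 = w - 2) {D : OK} {κ κ' : Chr w} {r I : QBar}
    (kd : Pool.Agent.R384.KD hw κ κ' D r I) {a b : ℤ} (he : Even (a + b)) (hab : a ≤ 0 ∨ b ≤ 0) :
    NoClasses ⊤ κ κ' a b := by
  intro c hc hs
  have hom : Pool.Agent.R384.em hw Pool.Agent.R384.om = w := by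
    rw [Pool.Agent.R384.em_apply]
    simp [Pool.Agent.R384.om]
  have hom' : Pool.Agent.R384.em hw (1 - Pool.Agent.R384.om) = 1 - w := by
    rw [map_sub, map_one, hom]
  have hcc : Continuous c := by
    have := hc.cont
    rwa [Subgroup.coe_top, continuousOn_univ] at this
  by_cases h0 : a = 0 ∧ b = 0
  · obtain ⟨rfl, rfl⟩ := h0
    have e : pw κ κ' 0 0 = 1 := by
      apply MonoidHom.ext
      intro σ
      show (κ σ) ^ (0 : ℤ) * (κ' σ) ^ (0 : ℤ) = 1
      rw [zpow_zero, zpow_zero, mul_one]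
    have hc' : Pool.Agent.R384.Coc 1 c := by
      refine ⟨hcc, fun σ τ => ?_⟩
      have h1 := hc.mul σ trivial τ trivial
      rw [e] at h1
      exact h1
    have hall : ∀ (p : ℕ) [Fact p.Prime] (ι : QBar →ₐ[ℚ] PadicAlgCl p),
        Pool.Agent.R384.CobOn 1 (Pool.Agent.R384.II ι) c := by
      intro p _ ι
      by_cases hp : p = 2
      · subst hp
        have h2 : ‖ι w‖ < 1 ∨ ‖ι (1 - w)‖ < 1 := by
          by_contra hcon
          push Not at hcon
          have h3 : ι w * ι (1 - w) = 2 := by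
            rw [← map_mul, show w * (1 - w) = 2 by linear_combination -hw, map_ofNat]
          have h4 := congrArg norm h3
          rw [norm_mul, Pool.Agent.Y715.Gi.norm_two'] at h4
          nlinarith [hcon.1, hcon.2]
        rcases h2 with h2 | h2
        · obtain ⟨y, hy⟩ := hs.one le_rfl ι h2
          rw [e, if_pos ⟨rfl, rfl⟩] at hy
          exact ⟨y, fun σ hσ => hy σ hσ trivial⟩
        · obtain ⟨y, hy⟩ := hs.two le_rfl ι h2
          rw [e, if_pos ⟨rfl, rfl⟩] at hy
          exact ⟨y, fun σ hσ => hy σ hσ trivial⟩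
      · obtain ⟨y, hy⟩ := hs.odd p ι hp
        rw [e] at hy
        exact ⟨y, fun σ hσ => hy σ hσ trivial⟩
    refine ⟨0, fun σ _ _ => ?_⟩
    rw [mul_zero]
    exact Pool.Agent.R384.vanish_one hw hc' hall σ
  · have hc' : Pool.Agent.R384.Coc (κ ^ a * κ' ^ b) c := ⟨hcc, fun σ τ => hc.mul σ trivial τ trivial⟩
    have hodd : ∀ (p : ℕ) [Fact p.Prime] (ι : QBar →ₐ[ℚ] PadicAlgCl p), p ≠ 2 →
        Pool.Agent.R384.CobOn (κ ^ a * κ' ^ b) (Pool.Agent.R384.II ι) c := by
      intro p _ ι hp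
      obtain ⟨y, hy⟩ := hs.odd p ι hp
      exact ⟨y, fun σ hσ => hy σ hσ trivial⟩
    rcases hab with h | h
    · obtain ⟨y, hy⟩ := Pool.Agent.R384.vanish_unr hw (kd.contAB hw a b) (kd.unrAB hw he)
        (ϖ := Pool.Agent.R384.om) (ϖ' := 1 - Pool.Agent.R384.om) (Or.inl ⟨rfl, rfl⟩) hc' hodd
        (fun ι hι => by
          rw [hom] at hι
          obtain ⟨y, hy⟩ := hs.one h ι hι
          rw [if_neg h0] at hy
          exact ⟨y, fun σ hσ => hy σ hσ trivial⟩)
      exact ⟨y, fun σ _ _ => hy σ⟩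
    · obtain ⟨y, hy⟩ := Pool.Agent.R384.vanish_unr hw (kd.contAB hw a b) (kd.unrAB hw he)
        (ϖ := 1 - Pool.Agent.R384.om) (ϖ' := Pool.Agent.R384.om) (Or.inr ⟨rfl, rfl⟩) hc' hodd
        (fun ι hι => by
          rw [hom'] at hι
          obtain ⟨y, hy⟩ := hs.two h ι hι
          rw [if_neg h0] at hy
          exact ⟨y, fun σ hσ => hy σ hσ trivial⟩)
      exact ⟨y, fun σ _ _ => hy σ⟩

/-- from the Selmer groups to the semistable classes -/
theorem odd_part {H : Sub w} {κ κ' : Chr w} {a b : ℤ} (ho : Odd (a + b))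
    (h : (a ≤ 0 ∧ SelmerZero w H (κ ^ a * κ' ^ b)) ∨ (b ≤ 0 ∧ SelmerZero (1 - w) H (κ ^ a * κ' ^ b))) :
    NoClasses H κ κ' a b := by
  intro c hc hs
  have h0 : ¬ (a = 0 ∧ b = 0) := by
    rintro ⟨rfl, rfl⟩
    simp at ho
  rcases h with ⟨h1, h2⟩ | ⟨h1, h2⟩
  · refine h2 c hc ⟨hs.odd, fun ι hι => ?_⟩
    have h3 := hs.one h1 ι hι
    rw [if_neg h0] at h3
    exact h3
  · refine h2 c hc ⟨hs.odd, fun ι hι => ?_⟩
    have h3 := hs.two h1 ι hι
    rw [if_neg h0] at h3
    exact h3

theorem vanish_of {M n : ℕ} {d : Fin n → ℕ} (hG : GoodPair M d) (hw : w ^ 2 = w - 2) {D u : OK}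
    {ε : ℤ} (hu : (u = -1 ∧ D = tw M ∧ ε = 0) ∨ (u = 1 ∧ D = -tw M ∧ ε = 1)) : Vanish D ε d w := by
  obtain ⟨hM0, -⟩ := Run7.h359.WD.good_ne' hG
  have hD : D ≠ 0 := by
    rcases hu with ⟨-, h, -⟩ | ⟨-, h, -⟩
    · rw [h]; exact tw_ne hM0
    · rw [h, Ne, neg_eq_zero]; exact tw_ne hM0
  obtain ⟨κ, κ', h1, r, I, kd⟩ := Run7.h359.GA.tate_of hD hw
  have hu' : (u = -1 ∧ D = tw M) ∨ (u = 1 ∧ D = -tw M) := by
    rcases hu with ⟨h, h', -⟩ | ⟨h, h', -⟩
    · exact Or.inl ⟨h, h'⟩
    · exact Or.inr ⟨h, h'⟩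
  have hpar : ∀ x : ℤ, Even (x + ε) → (Even x ∧ u = -1) ∨ (Odd x ∧ u = 1) := by
    intro x hx
    rcases hu with ⟨h, -, h'⟩ | ⟨h, -, h'⟩
    · rw [h', add_zero] at hx
      exact Or.inl ⟨hx, h⟩
    · rw [h', Int.even_add_one, Int.not_even_iff_odd] at hx
      exact Or.inr ⟨hx, h⟩
  refine ⟨elliptic hD hw, κ, κ', h1, fun a b he hab => even_part hw kd he hab,
    fun s hs a b ho hab => odd_part ho ?_⟩
  rcases hab with ⟨h2, h3⟩ | ⟨h2, h3⟩
  · refine Or.inl ⟨h3, ?_⟩
    have ho' : Odd (b + a) := by rwa [add_comm]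
    exact (Run7.h359.GA.sel_ab hG hw hu' kd hs ho' (hpar a h2)).2
  · exact Or.inr ⟨h3, (Run7.h359.GA.sel_ab hG hw hu' kd hs ho (hpar b h2)).1⟩

theorem both_of {M n : ℕ} {d : Fin n → ℕ} (hG : GoodPair M d) : BothSigns M d := by
  intro w hw
  refine ⟨?_, vanish_of hG hw (u := -1) (Or.inl ⟨rfl, rfl, rfl⟩), Run7.h359.GA.neg_iso hw M,
    vanish_of hG hw (u := 1) (Or.inr ⟨rfl, rfl, rfl⟩)⟩
  exact (Run7.h359.GA.pos_ofW hG hw).1

end proof

/-- **The semistable classes of all degrees and all twists.** -/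
theorem result :
    (∀ (n M : ℕ) (d : Fin n → ℕ), GoodPair M d → BothSigns M d) ∧
    (∀ (n M : ℕ) (d : Fin n → ℕ), Wide M → (∀ i, Wide (d i)) → Ind d →
      Proportion (c ^ 2 ^ n) (fun D => GoodPair (M * D) d ∧ BothSigns (M * D) d) ∧
      PairProportion (c ^ 2 ^ n / 4)
        (fun N => N % 8 = 1 ∧ GoodPair (M * N) d ∧ BothSigns (M * N) d)) ∧
    (∀ M : ℕ, Wide M → RankZeroShaTwo M → Tower M) ∧ 0.4194 < c ∧ c < 0.4195 := by
  obtain ⟨-, -, -, h4, h5⟩ := Pool.Agent.Results.MP_787500_nt.AllWeightsMultiquadraticX49.result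
  refine ⟨fun n M d h => both_of h, fun n M d hM hd hI => ⟨?_, ?_⟩, fun M hM hR => ?_, h4, h5⟩
  · exact prop_of (Run7.h359.LB.prp_good hM hd hI) fun D => ⟨fun h => ⟨h, both_of h⟩,
      fun h => h.1⟩
  · exact pair_of (Run7.h359.LB.prB_good hM hd hI) fun D =>
      ⟨fun h => ⟨h.1, h.2, both_of h.2⟩, fun h => ⟨h.1, h.2.1⟩⟩
  · obtain ⟨D, h1, h2⟩ := Run7.h359.TW.exists_tower hM hR
    exact ⟨D, h1, fun n => ⟨(h2 n).1, both_of (h2 n).2⟩⟩

end Pool.Agent.Results.MP_76188c_nt.AllTwistsBothSigns
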