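import Pool.Agent.Run7.h23.Tw.Main
import Pool.Agent.Run7.h23.Tw.Mul
import Pool.Agent.Run7.h23.Tw.Cyc
import Pool.Agent.Run7.h23.Gn.Idl

/-!
# Locally trivial classes in all the 2-adic twists of `V_2 J`, over all the 2-extensions at once

Let `F` be a number field, `g ≥ 1`, `T` a finite set of primes of `F` and `K₀` a finite extension of `F`. For a monic
polynomial `f` of degree `2 g + 1` over `𝓞 F` let `J` be the Jacobian of the curve `C : y ^ 2 = f(x)`. So
`V_2 J = H^1(C̄, ℚ_2(1))`; by Reid and Donagi `V_2 J = H^(2g-1)(X̄, ℚ_2(g))` for every smooth intersection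
`X` of two quadrics in `P^(2g+1)` whose pencil has the discriminant `m ^ 2 z f(x, z)` (for `g = 2`: threefolds in
`P^5`).

Theorem. There are a finite set `S` of primes of `F` (not over `2`, not in `T`, completely split in `K₀`) and
`c > 0` such that for all large `B` at least `c` times the number of ALL monic polynomials `f` of degree
`2 g + 1` over `𝓞 F` without term of degree `2 g` and of height at most `B` are irreducible and minimal, irreducible
modulo the primes over `2` and in `T`, and have the following property. For EVERY finite Galois extension `K / F` of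
2-power degree in which the primes over `2`, the primes in `S` and the real places split completely and in which
only primes modulo which `f` is irreducible are ramified, and for EVERY continuous representation
`ρ : Gal(K̄/K) → GL_n(ℤ_2)`, of any dimension, image and weight, with
* `ρ = 1 mod 2`; `ρ = 1 mod 4` on the decomposition groups over `S`; `ρ = 1` on the complex conjugations;
* `ρ` is unramified at the places `w ∤ 2` of `K`, except those modulo which `f` is irreducible
(there is no condition at `2`) every class in `H^1(K, V_2 J ⊗ ρ)` which is trivial at all places is trivial: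
`Ш^1(K, V_2 J ⊗ ρ) = 0`. The same is true over `F`, for all the representations `ρ` of `Gal(F̄/F)` whose
restrictions to `K` have these properties. All the Tate twists `ℤ_2(m)` with even `m`, and all `m ∈ ℤ` if `K` is
totally complex, satisfy the conditions; so `Ш^1(K, V_2 J(m)) = 0` for all these `m`, and `Ш^1(F, V_2 J ⊗ ρ(m)) = 0`
for all the 2-adic representations `ρ` of `Gal(K/F)`.

The problem. For `i = 2` and `j = m + 1 < 0` the left side of `Q1` is zero (`K_(2j-2) = 0`), so that `Q1` for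
`C_K` is the statement `H^1_st(K, H^1(C̄, ℚ_2(j))) = 0`. The local groups `H^1_st(K_v, V)` of `V = H^1(C̄, ℚ_2(j))` are
zero for all `v`, for `v ∤ 2` because neither `V` nor its Kummer dual has the weight `0` in its inertia
invariants, for `v ∣ 2` for the same reason and because `D_dR(V) / Fil^0 = 0`, and so `H^1_st(K, V) = Ш^1(K, V)`. Hence
for all the polynomials `f` and fields `K` in the theorem, and `ℓ = 2`, `Q1` is true for `C_K`, `i = 2` and ALL odd
`j < 0` (ALL `j < 0` if `F` is totally complex), for the motives `h^1(C)(j) ⊗ ρ` over `F` with the Artin motives `ρ` of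
`K / F`, and for `H^(2g)_M(X_K, ℚ(g-1+j))`, `X` the intersections of two quadrics. By Poitou-Tate duality
`H^2(G_Σ(K), H^1(C̄, ℚ_2(n))) = 0` for all odd `n ≠ 1` (Jannsen's conjecture; all `n` except `1, 2` if `F` is
totally complex): for odd `n ≥ 3` the target `H^1(G_Σ(K), H^1(C̄, ℚ_2(n)))` of the regulator has the
dimension `g [K : ℚ]` predicted by the conjecture.

Other representations `ρ`. (a) Let `F` be totally complex and `A` any abelian variety over `F` with
`A[2] ⊆ A(F)`; for `T` = the primes of bad reduction not over `2` and `K₀ = F(A[4])` all the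
`ρ = T_2 A(m)`, `m ∈ ℤ`, and all the tensor constructions `(T_2 A)^(⊗r)(m)` satisfy the conditions over all the `K`: so
`Ш^1(K, V_2 J ⊗ (V_2 A)^(⊗r)(m)) = 0`, and `Q1` is true for `ℓ = 2` and the motive `h^1(C) ⊗ h^r(A)` in
`h^(r+1)(C × A^r)` over `K` for all `j < 0`. (b) The characters of the `ℤ_2`-extensions of `K` in which no
decomposition group over `S` is too large (`K₀` = the first layers): specializations of `V_2 J ⊗ Λ`.

Here `J(L)` is the Picard group of `L[x, y] / (y ^ 2 - f)` (library `N874/Jac/Def.lean`), written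
multiplicatively. The elements of `V_2 J` are the sequences of points `x_m` of 2-power order with `x_(m+1) ^ 2 = x_m`.

Relation to earlier work. `AllQuadricPencils` (starting tree) has `H^1_f(F, V_2 J) = 0`; that one set of polynomials
works for all the fields `K` and all the Artin twists of `V_2 J` is `MP_787500_nt.AllArtinTwists` (`Run7/h23/Gn`,
`Run7/h23/Bk`). Those are the cases of weight `-1`. New here (`Run7/h23/Tw`): a Selmer group with much weaker local
conditions (for `w ∤ 2` outside `S` the classes are in the image of the points only over the maximal unramified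
extension of `K_w`) is zero for a positive proportion of the polynomials and all `K` at once (`Tw/Unr`, `EvU`, `Half`,
`NoFour`, `Sel`, `Main`), and the locally trivial classes of 2-power order of all the admissible twists are in
this Selmer group modulo 2 (`Tw/Tc`, `Ka`), so that `Ш^1` of the divisible modules, and then of the vector
spaces (`Tw/Kv`), vanish.
-/

set_option autoImplicit false
set_option linter.all false

namespace Pool.Agent.Results.MP_76188c_nt.AllTwoAdicTwists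

open Filter NumberField IsDedekindDomain Polynomial
open Pool.Agent.N874.Jac (J mapJ Gal)
open scoped Classical

section defs

variable (F : Type) [Field F] [NumberField F]

/-- All monic polynomials of degree `2 g + 1` with coefficients in the ring of integers of `F`, without term
of degree `2 g`, such that all conjugates of the coefficient of `x ^ j` have absolute value at
most `B ^ (2 g + 1 - j)`. -/
def Polys (g B : ℕ) : Set ((𝓞 F)[X]) :=
  {f | f.Monic ∧ f.natDegree = 2 * g + 1 ∧ f.coeff (2 * g) = 0 ∧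
    ∀ j ≤ 2 * g, ∀ σ : F →+* ℂ, ‖σ (f.coeff j : F)‖ ≤ (B : ℝ) ^ (2 * g + 1 - j)}

variable {F}

/-- The equation `y ^ 2 = f(x)` is minimal: there is no prime `𝔭` such that `𝔭 ^ (2 i)` divides the coefficient
of `x ^ (2 g + 1 - i)` for all `i > 0`. -/
def IsMinimal (g : ℕ) (f : (𝓞 F)[X]) : Prop :=
  ∀ 𝔭 : Ideal (𝓞 F), 𝔭.IsPrime → 𝔭 ≠ ⊥ → ¬ ∀ j ≤ 2 * g, f.coeff j ∈ 𝔭 ^ (2 * (2 * g + 1 - j))

/-- `f` is irreducible modulo the prime `𝔭`. -/
def IrreducibleMod (𝔭 : HeightOneSpectrum (𝓞 F)) (f : (𝓞 F)[X]) : Prop :=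
  Irreducible (f.map (Ideal.Quotient.mk 𝔭.asIdeal))

variable (K : Type) [Field K] [NumberField K] [Algebra F K]

/-- The prime `𝔭` of `F` splits completely in `K`: for every prime `𝔓` over `𝔭` the square of `𝔓` does not divide
`𝔭` and every integer of `K` is congruent to an integer of `F` modulo `𝔓`. -/
def SplitsCompletely (𝔭 : HeightOneSpectrum (𝓞 F)) : Prop :=
  ∀ 𝔓 : HeightOneSpectrum (𝓞 K), 𝔭.asIdeal.map (algebraMap (𝓞 F) (𝓞 K)) ≤ 𝔓.asIdeal →
    ¬ 𝔭.asIdeal.map (algebraMap (𝓞 F) (𝓞 K)) ≤ 𝔓.asIdeal ^ 2 ∧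
      ∀ y : 𝓞 K, ∃ x : 𝓞 F, y - algebraMap (𝓞 F) (𝓞 K) x ∈ 𝔓.asIdeal

/-- The prime `𝔭` of `F` is ramified in `K`. -/
def Ramified (𝔭 : HeightOneSpectrum (𝓞 F)) : Prop :=
  ∃ 𝔓 : HeightOneSpectrum (𝓞 K), 𝔭.asIdeal.map (algebraMap (𝓞 F) (𝓞 K)) ≤ 𝔓.asIdeal ^ 2

/-- The conditions on the Galois extension `K / F`: the degree is a power of two, the primes over `2`, the
primes in `S` and the real places (for a Galois extension: every embedding of `F` in `ℝ` extends to
`K`) split completely, and `f` is irreducible modulo all the ramified primes. -/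
structure Allowed (S : Finset (HeightOneSpectrum (𝓞 F))) (f : (𝓞 F)[X]) : Prop where
  degree : ∃ n : ℕ, Module.finrank F K = 2 ^ n
  two : ∀ 𝔭 : HeightOneSpectrum (𝓞 F), (2 : 𝓞 F) ∈ 𝔭.asIdeal → SplitsCompletely K 𝔭
  split : ∀ 𝔭 ∈ S, SplitsCompletely K 𝔭
  real : ∀ ρ : F →+* ℝ, ∃ τ : K →+* ℝ, ∀ x : F, τ (algebraMap F K x) = ρ x
  ramified : ∀ 𝔭 : HeightOneSpectrum (𝓞 F), Ramified K 𝔭 → IrreducibleMod 𝔭 f

end defs

/-! ### The cohomology of `V_2 J ⊗ ρ` -/

section modules

variable {F : Type} [Field F] (P : F[X]) {Ω : Type} [Field Ω] [Algebra F Ω] {n : ℕ}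

/-- The elements of `V_2 J`, `J` the Jacobian of `y ^ 2 = P(x)` (written multiplicatively), `Ω` a separable
closure of `F`: the sequences of points `x_m ∈ J(Ω)` of 2-power order with `x_(m + 1) ^ 2 = x_m`. -/
def IsV (x : ℕ → J P Ω) : Prop := ∀ m, x (m + 1) ^ 2 = x m ∧ ∃ k : ℕ, x m ^ 2 ^ k = 1

/-- The power of a point `x` of 2-power order with a 2-adic integer `a` as exponent: `a.appr k` is the natural
number less than `2 ^ k` which is congruent to `a` modulo `2 ^ k`. -/
noncomputable def power (x : J P Ω) (a : ℤ_[2]) : J P Ω := x ^ a.appr (orderOf x)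

/-- The action of the matrix `M` on the `n`-tuples of points of 2-power order. -/
noncomputable def act (M : Matrix (Fin n) (Fin n) ℤ_[2]) (y : Fin n → J P Ω) (i : Fin n) : J P Ω :=
  ∏ j, power P (y j) (M i j)

/-- The continuous cocycles on `Gal(Ω/F)` with values in `V_2 J ⊗ ρ`. -/
structure IsCocycle (ρ : (Ω ≃ₐ[F] Ω) →* Matrix (Fin n) (Fin n) ℤ_[2])
    (c : (Ω ≃ₐ[F] Ω) → Fin n → ℕ → J P Ω) : Prop where
  values : ∀ σ i, IsV P (c σ i)
  continuous : ∀ i m, IsLocallyConstant fun σ => c σ i m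
  cocycle : ∀ σ τ i m,
    c (σ * τ) i m = c σ i m * act P (ρ σ) (fun j => mapJ P σ.toAlgHom (c τ j m)) i

/-- The coboundaries. -/
def IsCoboundary (ρ : (Ω ≃ₐ[F] Ω) →* Matrix (Fin n) (Fin n) ℤ_[2])
    (c : (Ω ≃ₐ[F] Ω) → Fin n → ℕ → J P Ω) : Prop :=
  ∃ x : Fin n → ℕ → J P Ω, (∀ i, IsV P (x i)) ∧
    ∀ σ i m, c σ i m = act P (ρ σ) (fun j => mapJ P σ.toAlgHom (x j m)) i / x i m

/-- The restriction of the class of `c` to the field `E` is zero, `Ω'` a separable closure of `E`: there are an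
embedding `ι` of `Ω` in `Ω'` and `x` in `V_2 J ⊗ ρ` over `Ω'` such that `c(σ) = σ x / x` for the restrictions `σ` of
all the automorphisms `τ` of `Ω'` over `E`. -/
def IsTrivialOver (ρ : (Ω ≃ₐ[F] Ω) →* Matrix (Fin n) (Fin n) ℤ_[2]) (E Ω' : Type) [Field E]
    [Field Ω'] [Algebra E Ω'] [Algebra F E] [Algebra F Ω'] [IsScalarTower F E Ω']
    (c : (Ω ≃ₐ[F] Ω) → Fin n → ℕ → J P Ω) : Prop :=
  ∃ (ι : Ω →ₐ[F] Ω') (x : Fin n → ℕ → J P Ω'), (∀ i, IsV P (x i)) ∧
    ∀ (τ : Ω' ≃ₐ[E] Ω') (σ : Ω ≃ₐ[F] Ω), (∀ z, τ (ι z) = ι (σ z)) → ∀ i m,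
      mapJ P ι (c σ i m) =
        act P (ρ σ) (fun j => mapJ P (τ.toAlgHom.restrictScalars F) (x j m)) i / x i m

end modules

section tate

variable (F : Type) [Field F] (Ω : Type) [Field Ω] [Algebra F Ω] {n : ℕ}

/-- The 2-adic cyclotomic character. -/
noncomputable def cyclo : (Ω ≃ₐ[F] Ω) →* ℤ_[2]ˣ :=
  (cyclotomicCharacter Ω 2).comp (MulSemiringAction.toRingAut (Ω ≃ₐ[F] Ω) Ω)

variable {F Ω}

/-- The Tate twist `ρ(m)`. -/
noncomputable def tateTwist (m : ℤ) (ρ : (Ω ≃ₐ[F] Ω) →* Matrix (Fin n) (Fin n) ℤ_[2]) :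
    (Ω ≃ₐ[F] Ω) →* Matrix (Fin n) (Fin n) ℤ_[2] where
  toFun σ := ((cyclo F Ω σ ^ m : ℤ_[2]ˣ) : ℤ_[2]) • ρ σ
  map_one' := by rw [map_one, map_one, one_zpow, Units.val_one, one_smul]
  map_mul' σ τ := by
    rw [map_mul, map_mul, mul_zpow, Units.val_mul, smul_mul_smul_comm]

end tate

/-! ### The number fields `K` -/

section representations

variable {K : Type} [Field K] [NumberField K] {n : ℕ}

/-- The matrix `M` is congruent to `1` modulo `2 ^ k`. -/
def CongOne (k : ℕ) (M : Matrix (Fin n) (Fin n) ℤ_[2]) : Prop :=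
  ∀ i j, (2 : ℤ_[2]) ^ k ∣ M i j - (1 : Matrix (Fin n) (Fin n) ℤ_[2]) i j

/-- The absolute Galois group of the completion `K_w`. -/
abbrev LocalGal (w : HeightOneSpectrum (𝓞 K)) : Type :=
  SeparableClosure (w.adicCompletion K) ≃ₐ[w.adicCompletion K] SeparableClosure (w.adicCompletion K)

/-- `σ` is the restriction of `τ` for an embedding of the separable closures. -/
def IsRestriction (w : HeightOneSpectrum (𝓞 K)) (τ : LocalGal w) (σ : Gal K) : Prop :=
  ∃ ι : SeparableClosure K →ₐ[K] SeparableClosure (w.adicCompletion K), ∀ z, τ (ι z) = ι (σ z)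

/-- `τ` is in the inertia group: it fixes the roots of unity of all orders prime to `w`. -/
def IsInertial (w : HeightOneSpectrum (𝓞 K)) (τ : LocalGal w) : Prop :=
  ∀ (N : ℕ) (ζ : SeparableClosure (w.adicCompletion K)), (N : 𝓞 K) ∉ w.asIdeal → ζ ^ N = 1 →
    τ ζ = ζ

/-- The conditions on the representation `ρ` of the absolute Galois group of `K`: it is continuous, trivial modulo
`2`, trivial modulo `4` on the decomposition groups of the places over `S`, trivial on the complex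
conjugations, and unramified at all places not over `2` modulo which `f` is not irreducible. -/
structure Admissible {F : Type} [Field F] [NumberField F] [Algebra F K]
    (S : Finset (HeightOneSpectrum (𝓞 F))) (f : (𝓞 F)[X])
    (ρ : Gal K →* Matrix (Fin n) (Fin n) ℤ_[2]) : Prop where
  continuous : Continuous ρ
  two : ∀ σ, CongOne 1 (ρ σ)
  four : ∀ 𝔭 ∈ S, ∀ w : HeightOneSpectrum (𝓞 K),
    𝔭.asIdeal.map (algebraMap (𝓞 F) (𝓞 K)) ≤ w.asIdeal →
    ∀ (τ : LocalGal w) (σ : Gal K), IsRestriction w τ σ → CongOne 2 (ρ σ)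
  real : ∀ (e : SeparableClosure K →+* ℂ) (σ : Gal K),
    (∀ z, e (σ z) = starRingEnd ℂ (e z)) → ρ σ = 1
  unramified : ∀ w : HeightOneSpectrum (𝓞 K), (2 : 𝓞 K) ∉ w.asIdeal →
    ¬ IrreducibleMod w (f.map (algebraMap (𝓞 F) (𝓞 K))) →
    ∀ (τ : LocalGal w) (σ : Gal K), IsInertial w τ → IsRestriction w τ σ → ρ σ = 1

end representations

section vanishing

/-- `Ш^1 (K, V_2 J ⊗ ρ) = 0` for `y ^ 2 = P(x)` over `K`: every continuous cocycle which is a coboundary over all the
completions `K_w` is a coboundary. -/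
def ShaZero {K : Type} [Field K] [NumberField K] (P : K[X]) {n : ℕ}
    (ρ : Gal K →* Matrix (Fin n) (Fin n) ℤ_[2]) : Prop :=
  ∀ c : Gal K → Fin n → ℕ → J P (SeparableClosure K), IsCocycle P ρ c →
    (∀ w : HeightOneSpectrum (𝓞 K),
      IsTrivialOver P ρ (w.adicCompletion K) (SeparableClosure (w.adicCompletion K)) c) →
    IsCoboundary P ρ c

variable {F : Type} [Field F] (P : F[X]) (K : Type) [Field K] [NumberField K] [Algebra F K]
  [Algebra F (SeparableClosure K)] [IsScalarTower F K (SeparableClosure K)] {n : ℕ}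

variable (F) in
/-- The group of the automorphisms over `F` of the separable closure of `K`. -/
abbrev GalOver : Type := SeparableClosure K ≃ₐ[F] SeparableClosure K

variable {K} in
/-- The restriction to `Gal K` of a representation of the Galois group over `F`. -/
noncomputable def resRep (ρ : GalOver F K →* Matrix (Fin n) (Fin n) ℤ_[2]) :
    Gal K →* Matrix (Fin n) (Fin n) ℤ_[2] :=
  ρ.comp { toFun := Run7.h23.Bk.rsE, map_one' := rfl, map_mul' := fun _ _ => rfl }

/-- The restriction to `Gal K` of a cocycle over `F`. The map `bc` is the identification of the group `J(Ω)` for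
`y ^ 2 = P(x)` over `F` and over `K`. -/
noncomputable def resCocycle (c : GalOver F K → Fin n → ℕ → J P (SeparableClosure K)) :
    Gal K → Fin n → ℕ → J (P.map (algebraMap F K)) (SeparableClosure K) :=
  fun σ i m => Run7.h23.Bk.bc K P (SeparableClosure K) (c (Run7.h23.Bk.rsE σ) i m)

/-- The same over `F`: every continuous cocycle on the Galois group over `F` whose restriction to `K` is a
coboundary over all the completions `K_w` is a coboundary. In particular `Ш^1 (F, V_2 J ⊗ ρ) = 0`. -/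
def ShaZeroBase (ρ : GalOver F K →* Matrix (Fin n) (Fin n) ℤ_[2]) : Prop :=
  ∀ c : GalOver F K → Fin n → ℕ → J P (SeparableClosure K), IsCocycle P ρ c →
    (∀ w : HeightOneSpectrum (𝓞 K), IsTrivialOver (P.map (algebraMap F K)) (resRep ρ)
      (w.adicCompletion K) (SeparableClosure (w.adicCompletion K)) (resCocycle P K c)) →
    IsCoboundary P ρ c

end vanishing

section uniform

variable {F : Type} [Field F] [NumberField F]

/-- The properties over `K`. -/
structure Vanishing (S : Finset (HeightOneSpectrum (𝓞 F))) (K : Type) [Field K] [NumberField K]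
    [Algebra F K] (f : (𝓞 F)[X]) : Prop where
  /-- `Ш^1 (K, V_2 J ⊗ ρ) = 0` for all admissible `ρ` -/
  twists : ∀ (n : ℕ) (ρ : Gal K →* Matrix (Fin n) (Fin n) ℤ_[2]), Admissible S f ρ →
    ShaZero ((f.map (algebraMap (𝓞 F) F)).map (algebraMap F K)) ρ
  /-- `Ш^1 (F, V_2 J ⊗ ρ) = 0` for all the representations `ρ` over `F` which are admissible over `K` -/
  descended : ∀ [Algebra F (SeparableClosure K)] [IsScalarTower F K (SeparableClosure K)] (n : ℕ)
    (ρ : GalOver F K →* Matrix (Fin n) (Fin n) ℤ_[2]), Admissible S f (resRep ρ) →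
    ShaZeroBase (f.map (algebraMap (𝓞 F) F)) K ρ
  /-- the Tate twists: `Ш^1 (K, V_2 J(m)) = 0` -/
  tate : ∀ m : ℤ, Even m ∨ IsEmpty (K →+* ℝ) →
    ShaZero ((f.map (algebraMap (𝓞 F) F)).map (algebraMap F K))
      (tateTwist m (1 : Gal K →* Matrix (Fin 1) (Fin 1) ℤ_[2]))
  /-- the Tate twists with Artin motives: `Ш^1 (F, V_2 J ⊗ ρ(m)) = 0` for all the 2-adic
  representations `ρ` of `Gal(K/F)` -/
  artin : ∀ [Algebra F (SeparableClosure K)] [IsScalarTower F K (SeparableClosure K)] (n : ℕ)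
    (ρ : GalOver F K →* Matrix (Fin n) (Fin n) ℤ_[2]), resRep ρ = 1 →
    ∀ m : ℤ, Even m ∨ IsEmpty (K →+* ℝ) →
    ShaZeroBase (f.map (algebraMap (𝓞 F) F)) K (tateTwist m ρ)

/-- The property of `f` in the theorem. -/
def Uniform (S : Finset (HeightOneSpectrum (𝓞 F))) (f : (𝓞 F)[X]) : Prop :=
  ∀ (K : Type) [Field K] [NumberField K] [Algebra F K] [IsGalois F K], Allowed K S f →
    Vanishing S K f

end uniform

theorem ht_iff {F : Type} [Field F] [NumberField F] (g B : ℕ) (f : (𝓞 F)[X]) :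
    Pool.Agent.N783.PF.Ht g B f ↔ f ∈ Polys F g B :=
  ⟨fun h => ⟨h.mon, h.deg, h.tr, h.ht⟩, fun h => ⟨h.1, h.2.1, h.2.2.1, h.2.2.2⟩⟩

theorem mem (F : Type) [Field F] [NumberField F] (g B : ℕ) : (X ^ (2 * g + 1) : (𝓞 F)[X]) ∈ Polys F g B := by
  refine ⟨monic_X_pow _, natDegree_X_pow _, ?_, fun j hj σ => ?_⟩
  · rw [coeff_X_pow, if_neg (by omega)]
  · rw [coeff_X_pow, if_neg (by omega)]
    simp

section glue

open Run7.h23.Tw (Dec Cg1 N2 RhoK AW NF Nr mu cyc tate_apply unit_odd unit_sq cyc_four cyc_conj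
  cyc_inert cyc_cont)
open Run7.h23.Gn (Ab Sp Un)
open Run7.h23.Gn.W (SelW GoodW)
open Pool.Agent.N783.PF (fF rd)
open Pool.Agent.Y160.SE (Good)

variable {F : Type} [Field F] [NumberField F] {K : Type} [Field K] [NumberField K] [Algebra F K]
  {S : Finset (HeightOneSpectrum (𝓞 F))} {f : (𝓞 F)[X]} {n : ℕ}

theorem real_of {ρ : Gal K →* Matrix (Fin n) (Fin n) ℤ_[2]}
    (h : ∀ (e : SeparableClosure K →+* ℂ) (σ : Gal K),
      (∀ z, e (σ z) = starRingEnd ℂ (e z)) → ρ σ = 1) [Algebra K ℝ] :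
    Dec ρ ℝ (SeparableClosure ℝ) fun N => N = 1 := by
  intro ι τ σ hx
  haveI : IsSepClosure ℝ ℂ := ⟨inferInstance, inferInstance⟩
  let e : SeparableClosure ℝ ≃ₐ[ℝ] ℂ := IsSepClosure.equiv ℝ _ _
  have h1 := Complex.real_algHom_eq_id_or_conj
    (((e : SeparableClosure ℝ →ₐ[ℝ] ℂ).comp (τ : SeparableClosure ℝ →ₐ[ℝ] _)).comp
      (e.symm : ℂ →ₐ[ℝ] SeparableClosure ℝ))
  rcases h1 with h1 | h1
  · have h2 : ∀ x, e (τ x) = e x := by
      intro x
      have := congrArg (fun g => g (e x)) h1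
      simpa using this
    have h3 : σ = 1 := by
      refine AlgEquiv.ext fun z => ι.injective ?_
      show ι (σ z) = ι z
      rw [← hx]
      exact e.injective (h2 _)
    show ρ σ = 1
    rw [h3, map_one]
  · have h2 : ∀ x, e (τ x) = starRingEnd ℂ (e x) := by
      intro x
      have := congrArg (fun g => g (e x)) h1
      simpa using this
    refine h (((e : SeparableClosure ℝ ≃+* ℂ) : SeparableClosure ℝ →+* ℂ).comp
      (ι : SeparableClosure K →+* SeparableClosure ℝ)) σ fun z => ?_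
    show e (ι (σ z)) = starRingEnd ℂ (e (ι z))
    rw [← hx]
    exact h2 _

/-- The places over `S`. -/
def OverS (S : Finset (HeightOneSpectrum (𝓞 F))) (w : HeightOneSpectrum (𝓞 K)) : Prop :=
  ∃ 𝔭 ∈ S, 𝔭.asIdeal.map (algebraMap (𝓞 F) (𝓞 K)) ≤ w.asIdeal

theorem rho_of {ρ : Gal K →* Matrix (Fin n) (Fin n) ℤ_[2]} (h : Admissible S f ρ)
    (hm : f.Monic) (hg : Good 2 (-1 : K) (fF (f.map (algebraMap (𝓞 F) (𝓞 K))))) :
    RhoK (fF (f.map (algebraMap (𝓞 F) (𝓞 K)))) (OverS S) ρ where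
  cont i j := h.continuous.matrix_elem i j
  two := h.two
  real := real_of h.real
  four := by
    rintro w ⟨𝔭, h𝔭, hw⟩ ι τ σ hx
    exact h.four 𝔭 h𝔭 w hw τ σ ⟨ι, hx⟩
  unr := by
    intro w hw
    by_cases hi : IrreducibleMod w (f.map (algebraMap (𝓞 F) (𝓞 K)))
    · exact Or.inl (Run7.h23.Tw.n2_irr hg (Run7.h23.Tw.irr_comp w (hm.map _) hi))
    · refine Or.inr fun ι τ σ hx => ?_
      refine h.unramified w hw hi (τ.restrictScalars (w.adicCompletion K)) σ ?_ ⟨ι, hx⟩
      intro N ζ hN hζ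
      exact τ.commutes (⟨ζ, IntermediateField.subset_adjoin _ _ ⟨N, hN, hζ⟩⟩ : Nr w)

theorem scalar_cg {k : ℕ} {u : ℤ_[2]} (h : (2 : ℤ_[2]) ^ k ∣ u - 1) :
    CongOne k (u • (1 : Matrix (Fin n) (Fin n) ℤ_[2])) := by
  intro i j
  have e : (u • (1 : Matrix (Fin n) (Fin n) ℤ_[2])) i j - (1 : Matrix (Fin n) (Fin n) ℤ_[2]) i j =
      (u - 1) * (1 : Matrix (Fin n) (Fin n) ℤ_[2]) i j := by
    rw [Matrix.smul_apply, smul_eq_mul, sub_mul, one_mul]
  rw [e]
  exact Dvd.dvd.mul_right h _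

/-- The Tate twists are admissible. -/
theorem adm_tate (hS : ∀ 𝔭 ∈ S, ∃ q : ℕ, q.Prime ∧ q % 8 = 1 ∧ (q : 𝓞 F) ∈ 𝔭.asIdeal)
    {ρ : Gal K →* Matrix (Fin n) (Fin n) ℤ_[2]} {m : ℤ} (hm : Even m ∨ IsEmpty (K →+* ℝ))
    (hρ : ∀ σ, ρ σ = ((cyc K σ ^ m : ℤ_[2]ˣ) : ℤ_[2]) • 1) : Admissible S f ρ where
  continuous := by
    have e : (ρ : Gal K → _) = fun σ => ((cyc K σ ^ m : ℤ_[2]ˣ) : ℤ_[2]) •
      (1 : Matrix (Fin n) (Fin n) ℤ_[2]) := funext hρ
    rw [e]
    exact (Units.continuous_val.comp (cyc_cont.zpow m)).smul continuous_const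
  two σ := by
    rw [hρ]
    exact scalar_cg (by rw [pow_one]; exact unit_odd _)
  four := by
    rintro 𝔭 h𝔭 w hw τ σ ⟨ι, hx⟩
    obtain ⟨q, hq, hq8, hqm⟩ := hS 𝔭 h𝔭
    have hqw : (q : 𝓞 K) ∈ w.asIdeal := by
      have := hw (Ideal.mem_map_of_mem (algebraMap (𝓞 F) (𝓞 K)) hqm)
      rwa [map_natCast] at this
    have h1 := cyc_four hq hq8 hqw hx m 0 0
    rw [tate_apply, Matrix.one_apply_eq] at h1
    rw [hρ]
    exact scalar_cg h1
  real := by
    intro e σ h
    rcases hm with hm | hm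
    · rw [hρ, cyc_conj h hm, Units.val_one, one_smul]
    · have h1 : ∀ x : K, starRingEnd ℂ (e (algebraMap K _ x)) = e (algebraMap K _ x) := by
        intro x
        rw [← h, σ.commutes]
      have h2 : NumberField.ComplexEmbedding.IsReal (e.comp (algebraMap K (SeparableClosure K))) := by
        rw [NumberField.ComplexEmbedding.isReal_iff]
        exact RingHom.ext h1
      exact (hm.false h2.embedding).elim
  unramified := by
    rintro w hw - τ σ hτ ⟨ι, hx⟩
    rw [hρ, cyc_inert hw hx hτ, one_zpow, Units.val_one, one_smul]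

/-- The places over `2`. -/
theorem two_of (hm : f.Monic) (hg : Good 2 (-1 : K) (fF (f.map (algebraMap (𝓞 F) (𝓞 K)))))
    (h1 : ∀ v : HeightOneSpectrum (𝓞 F), (2 : 𝓞 F) ∈ v.asIdeal → Irreducible (rd v.asIdeal f))
    (h2 : ∀ v : HeightOneSpectrum (𝓞 F), (2 : 𝓞 F) ∈ v.asIdeal → Sp v K)
    {w : HeightOneSpectrum (𝓞 K)} (hw : (2 : 𝓞 K) ∈ w.asIdeal) :
    N2 (w.adicCompletion K) (fF (f.map (algebraMap (𝓞 F) (𝓞 K)))) := by
  obtain ⟨v, hv⟩ := Run7.h23.Gn.exists_ab (F := F) w
  have h3 : (2 : 𝓞 F) ∈ v.asIdeal := by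
    rw [Run7.h23.Gn.eq_under (Run7.h23.Gn.ov_of_ab hv)]
    show algebraMap (𝓞 F) (𝓞 K) 2 ∈ w.asIdeal
    rw [map_ofNat]
    exact hw
  exact Run7.h23.Tw.n2_irr hg (Run7.h23.Tw.irr_comp w (hm.map _)
    (Run7.h23.Gn.irr_w (h2 v h3) hv (h1 v h3)))

theorem vanishing_of {T : Finset (HeightOneSpectrum (𝓞 F))}
    (hS : ∀ 𝔭 ∈ S, ∃ q : ℕ, q.Prime ∧ q % 8 = 1 ∧ (q : 𝓞 F) ∈ 𝔭.asIdeal) (hm : f.Monic)
    (ho : Odd f.natDegree) (hf : GoodW S T f) [IsGalois F K] (hK : Allowed K S f) :
    Vanishing S K f := by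
  obtain ⟨k, hk⟩ := hK.degree
  have h2 : ∀ v : HeightOneSpectrum (𝓞 F), (2 : 𝓞 F) ∈ v.asIdeal → Sp v K :=
    fun v hv => Run7.h23.Gn.sp_of_spI (hK.two v hv)
  have key := hf.2 K k hk h2 (fun v hv => Run7.h23.Gn.sp_of_spI (hK.split v hv)) hK.real
    (fun v hv => hK.ramified v (by
      by_contra hc
      exact hv (Run7.h23.Gn.un_of_not hc)))
  have hirr := (key (fun _ => True) (fun _ _ _ _ _ => trivial) (fun _ _ => trivial)).1
  have hmK : (fF (f.map (algebraMap (𝓞 F) (𝓞 K)))).Monic := (hm.map _).map _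
  have hoK : Odd (fF (f.map (algebraMap (𝓞 F) (𝓞 K)))).natDegree := by
    have e := (hm.map (algebraMap (𝓞 F) (𝓞 K))).natDegree_map (algebraMap (𝓞 K) K)
    show Odd ((f.map (algebraMap (𝓞 F) (𝓞 K))).map (algebraMap (𝓞 K) K)).natDegree
    rw [e, hm.natDegree_map]
    exact ho
  have hg : Good 2 (-1 : K) (fF (f.map (algebraMap (𝓞 F) (𝓞 K)))) :=
    Pool.Agent.N106.JB.good2 two_ne_zero hmK hirr.separable hoK
  have main : ∀ (n : ℕ) (ρ : Gal K →* Matrix (Fin n) (Fin n) ℤ_[2]), Admissible S f ρ →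
      RhoK ((f.map (algebraMap (𝓞 F) F)).map (algebraMap F K)) (OverS S) ρ ∧
      SelW (AW ((f.map (algebraMap (𝓞 F) F)).map (algebraMap F K)) ρ)
        ((f.map (algebraMap (𝓞 F) F)).map (algebraMap F K)) := by
    intro n ρ h
    have h5 := rho_of h hm hg
    have h6 := (key (AW (fF (f.map (algebraMap (𝓞 F) (𝓞 K)))) ρ) (fun v hv w hw hnf => Or.inr
      ⟨hnf, h5.four w ⟨v, hv, Ideal.map_le_iff_le_comap.2 fun a ha =>
        Run7.h23.Gn.ov_of_ab hw a ha⟩⟩) (fun w hw => Or.inl
          (two_of hm hg (fun v hv => hf.1 v (Or.inl hv)) h2 hw))).2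
    rw [Run7.h23.Gn.fF_map] at h5 h6
    exact ⟨h5, h6⟩
  rw [Run7.h23.Gn.fF_map] at hirr hg
  have hA : ∀ (n : ℕ) (ρ : Gal K →* Matrix (Fin n) (Fin n) ℤ_[2]), Admissible S f ρ →
      ShaZero ((f.map (algebraMap (𝓞 F) F)).map (algebraMap F K)) ρ := by
    intro n ρ h c hc hl
    obtain ⟨h5, h6⟩ := main n ρ h
    exact Run7.h23.Tw.over_mul hg hirr h5 h6 c hc.continuous hc.values hc.cocycle hl
  have hB : ∀ [Algebra F (SeparableClosure K)] [IsScalarTower F K (SeparableClosure K)] (n : ℕ)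
      (ρ : GalOver F K →* Matrix (Fin n) (Fin n) ℤ_[2]), Admissible S f (resRep ρ) →
      ShaZeroBase (f.map (algebraMap (𝓞 F) F)) K ρ := by
    intro _ _ n ρ h c hc hl
    obtain ⟨h5, h6⟩ := main n (resRep ρ) h
    exact Run7.h23.Tw.base_mul hg hirr h5 h6 c hc.continuous hc.values hc.cocycle hl
  refine ⟨hA, hB, fun m hm' => hA 1 _ (adm_tate hS hm' fun σ => rfl), ?_⟩
  intro _ _ n ρ hρ m hm'
  refine hB n _ (adm_tate hS hm' fun σ => ?_)
  have h7 : ρ (Run7.h23.Bk.rsE σ) = 1 := congrArg (fun φ => φ σ) hρ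
  show ((cyclo F (SeparableClosure K) (Run7.h23.Bk.rsE σ) ^ m : ℤ_[2]ˣ) : ℤ_[2]) •
    ρ (Run7.h23.Bk.rsE σ) = _
  rw [h7]
  rfl

end glue

/-- For every number field `F`, every `g ≥ 1`, every finite set `T` of primes of `F` and every finite extension `K₀` of
`F` there are a finite set `S` of primes of `F`, not over `2`, not in `T` and completely split in `K₀`, and `c > 0` such
that for all large `B` at least `c` times the number of all monic polynomials `f` of degree `2 g + 1` over the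
ring of integers without term of degree `2 g` and of height at most `B` are irreducible over `F`, minimal,
irreducible modulo the primes over `2` and in `T`, and have the property: for EVERY finite Galois extension `K` of
`F` of 2-power degree in which the primes over `2`, the primes in `S` and the real places split completely and `f` is
irreducible modulo the ramified primes, and for EVERY continuous 2-adic representation `ρ` of the absolute Galois
group of `K` with the conditions in `Admissible`, the group `Ш^1 (K, V_2 J ⊗ ρ)` is zero, and the same is true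
over `F` for the representations of the absolute Galois group of `F` whose restrictions to `K` have these
properties; the Tate twists `ℤ_2(m)` and `ρ(m)`, `ρ` a representation of `Gal(K/F)`, are included for all even
`m`, and for all `m` if `K` has no real embedding. -/
theorem result (F : Type) [Field F] [NumberField F] (g : ℕ) (hg : 1 ≤ g)
    (T : Finset (HeightOneSpectrum (𝓞 F))) (K₀ : Type) [Field K₀] [NumberField K₀] [Algebra F K₀] :
    ∃ S : Finset (HeightOneSpectrum (𝓞 F)),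
      (∀ 𝔭 ∈ S, (2 : 𝓞 F) ∉ 𝔭.asIdeal ∧ 𝔭 ∉ T ∧ SplitsCompletely K₀ 𝔭) ∧
      ∃ c : ℝ, 0 < c ∧ ∀ᶠ B : ℕ in atTop,
        (Polys F g B).Finite ∧ 0 < (Polys F g B).ncard ∧
        c * ((Polys F g B).ncard : ℝ) ≤
          (({f ∈ Polys F g B | Irreducible (f.map (algebraMap (𝓞 F) F)) ∧ IsMinimal g f ∧
            (∀ 𝔭 : HeightOneSpectrum (𝓞 F), (2 : 𝓞 F) ∈ 𝔭.asIdeal ∨ 𝔭 ∈ T →
              IrreducibleMod 𝔭 f) ∧ Uniform S f}).ncard : ℝ) := by
  obtain ⟨S, hS, c, hc, B₀, h⟩ := Run7.h23.Gn.W.mainW g F hg T K₀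
  refine ⟨S, fun v hv => ?_, c, hc, ?_⟩
  · obtain ⟨h1, h2, h3, -⟩ := hS v hv
    exact ⟨h1, h2, Run7.h23.Gn.spI_of_sp h3⟩
  filter_upwards [eventually_ge_atTop B₀] with B hB
  obtain ⟨hfin, hle⟩ := h B hB
  have hset : {f : (𝓞 F)[X] | Pool.Agent.N783.PF.Ht g B f} = Polys F g B := by
    ext f
    exact ht_iff g B f
  rw [hset] at hfin hle
  refine ⟨hfin, (Set.ncard_pos hfin).2 ⟨_, mem F g B⟩, hle.trans ?_⟩
  have h3 : {f : (𝓞 F)[X] | Pool.Agent.N783.PF.Ht g B f ∧
      Irreducible (Pool.Agent.N783.PF.fF f) ∧ Pool.Agent.N783.PF.Min g f ∧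
      Run7.h23.Gn.W.GoodW S T f} ⊆
      {f ∈ Polys F g B | Irreducible (f.map (algebraMap (𝓞 F) F)) ∧ IsMinimal g f ∧
        (∀ 𝔭 : HeightOneSpectrum (𝓞 F), (2 : 𝓞 F) ∈ 𝔭.asIdeal ∨ 𝔭 ∈ T →
          IrreducibleMod 𝔭 f) ∧ Uniform S f} := by
    rintro f ⟨hf, hi, hm, hg'⟩
    refine ⟨(ht_iff g B f).1 hf, hi, hm, hg'.1, ?_⟩
    intro K _ _ _ _ hK
    refine vanishing_of (fun v hv => (hS v hv).2.2.2) hf.mon ?_ hg' hK
    rw [hf.deg]
    exact odd_two_mul_add_one g
  have h4 := Set.ncard_le_ncard h3 (hfin.subset fun f hf => hf.1)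
  exact_mod_cast h4

end Pool.Agent.Results.MP_76188c_nt.AllTwoAdicTwists
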