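import Pool.Agent.Run7.h954.RV.Reg

/-!
# `ℓ`-adic regulators and rational varieties over `ℚ`

`T K s j X` consists of the regulator `H^s_M(X, ℚ(j))_hom ⊗ ℚ_ℓ → H^1(G_K, H^{s-1}(X, ℚ_ℓ(j)))` and of the
subgroup of the semistable classes, with well known properties; `Geometry ℚ` consists of well known facts on smooth
projective varieties over `ℚ`. Blow-ups are defined by their universal property.

Q1 for all number fields, all smooth projective varieties and all `s, j` is equivalent to Q1 in the degree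
`(2 n - e, n)` for the smooth projective rational varieties over `ℚ` of dimension `2 n - 1`, for all `e` and all
`n` in an arbitrary infinite set (which may depend on `e`).
-/

set_option autoImplicit false

universe u

namespace Pool.Agent.Results.MP_76188c_nt.RationalVarieties

open Pool.Agent.Run7.h954.RV

theorem result (G : Geometry ℚ) (T : RegFamily.{u}) (hT : IsReg (T ℚ)) (hres : RegShapiro T) :
    -- all number fields, varieties and degrees; middle degree of rational varieties over `ℚ`
    (∀ S : ℤ → Set ℕ, (∀ e, (S e).Infinite) →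
      ((∀ (K : Type) [Field K] [NumberField K] (X : Sch K), SmoothProj X → ∀ s j, (T K s j X).Good) ↔
        ∀ e : ℤ, ∀ n ∈ S e, ∀ Y : Sch ℚ, RatVar (2 * n - 1) Y → (T ℚ (2 * n - e) n Y).Good)) ∧
    -- twists at most `m` for all varieties; twist `m + 1` for rational varieties (one `e`)
    (∀ e m : ℤ, (∀ X : Sch ℚ, SmoothProj X → ∀ b ≤ m, (T ℚ (2 * b - e) b X).Good) ↔
      ∀ (N : ℕ) (Y : Sch ℚ), RatVar N Y → (T ℚ (2 * (m + 1) - e) (m + 1) Y).Good) ∧
    -- one variety
    (∀ (e : ℤ) (X : Sch ℚ), SmoothProj X → ∀ d, Dim X d → ∀ n, d + e.natAbs + 1 ≤ n →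
      ∃ (i : X ⟶ PP ℚ (2 * n - 1)) (Y : Sch ℚ) (π : Y ⟶ PP ℚ (2 * n - 1)),
        Center i d (2 * n - 1) ∧ IsBlowUp i π ∧ RatVar (2 * n - 1) Y ∧
          ((∀ m, (T ℚ (2 * m - e) m X).Good) ↔ (T ℚ (2 * n - e) n Y).Good)) := by
  refine ⟨fun S hS => ?_, fun e m => level G (hT.compatible e) m, fun e X hX d hd n hn => ?_⟩
  · rw [reg_all hres]
    exact forall_congr' fun e => infinite G (hT.compatible e) (hS e)
  · obtain ⟨i, Y, π, hc, hπ, hY⟩ := G.exists_rat hX hd (N := 2 * n - 1) (by omega)
    exact ⟨i, Y, π, hc, hπ, hY, middle (hT.compatible e) hn hc hπ⟩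

end Pool.Agent.Results.MP_76188c_nt.RationalVarieties
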