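import Pool.Agent.Run7.h184.AJ.Main
import Pool.Agent.Run7.h184.REG.Main

/-!
# The `ℓ`-adic regulators of all powers of a variety: all are isomorphisms, or the defects are huge

Let `X` be a smooth projective variety over a number field `k` and `ℓ` a prime number.  Suppose that
`X` satisfies the sign conjecture `C⁺`: the projector of the étale cohomology of `X` to its even part
is algebraic (known for curves, surfaces, abelian varieties, complete intersections, and products of
such varieties).  Let `b` be the sum of the Betti numbers of `X`.  For every smooth projective `Y` over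
`k` and every integer `m` let

* `M_m(Y)` be the sum of the spaces `H^i_M(Y, ℚ(j))_hom ⊗ ℚ_ℓ` over all `i`, `j` with `2 j - i = m`
  (for `m > 0` this is `K_m(Y) ⊗ ℚ_ℓ`, for `m = 0` the sum of the spaces `CH^j(Y)_hom ⊗ ℚ_ℓ`, and for
  `m < 0` it is zero),
* `S_m(Y)` be the sum of the spaces `H^1_st(G_k, H^(i - 1)(Y, ℚ_ℓ(j)))` over the same `i`, `j`,
* `r_m : M_m(Y) → S_m(Y)` be the sum of the regulators `r_ℓ` of the problem.

So `Q1` for `Y`, `ℓ` and all `i`, `j` is the statement that all `r_m` are isomorphisms for `Y`.  Let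
`ρ(n)` be the rank of the group of all cycles on `X ^ n` modulo numerical equivalence.

Theorem.

1. (Law.)  For each `m` the quotients of the dimensions of `M_m(X ^ n)`, of `S_m(X ^ n)`, of the kernel
   and of the cokernel of `r_m` on `X ^ n` and of `ρ(n)` converge for `n → ∞` to elements `Nmot`, `Nst`,
   `Nker`, `Ncok` of `{0, 1, 2, …, ∞}`, with `Nmot + Ncok = Nst + Nker`.  We have `Nker = 0` if and only if
   `r_m` is injective for ALL powers of `X`, and `Ncok = 0` if and only if `r_m` is onto for ALL powers.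
2. (Gap.)  If `r_m` is not injective (not onto) for one power `X ^ a`, then for ALL `n` with
   `2 n ≥ 128 (a + 1) ^ 2 b ^ (2 a + 6)` the dimension of the kernel (cokernel) of `r_m` on `X ^ (2 n)` is
   at least `ρ(2 n) / 2` and at least `b ^ (2 n) / (2 (n + 1) ^ (b ^ 2))`.  So one inequality for one
   explicit large power implies that `r_m` is injective (onto) for `X ^ a`.
3. (`Q1`.)  `Q1` holds for all powers of `X` (all `i`, `j`) if and only if for each `m` there is a
   constant `c < 1` such that the dimension of the kernel of `r_m` on `X ^ n` is at most `c ρ(n)` for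
   infinitely many `n`, and the dimension of the cokernel is at most `c ρ(n)` for infinitely many `n`.
4. (Nilpotence.)  If `Nker = k` is finite for `m = 0`, then each composition of `k + 2` homologically
   trivial correspondences between powers of `X` is zero; if `Nker = k` is finite for `m ≠ 0`, then each
   composition of `k + 1` such correspondences acts as zero on `M_m`.

The setting.  `C` is the category of the smooth projective varieties over `k` with the groups
`CH^*(Y × Z) ⊗ ℚ_ℓ` (all codimensions) as morphisms, a rigid symmetric monoidal category, `T = h(X)`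
is self-dual, `tp T n = h(X ^ n)`, `Λ = ℚ_ℓ`, `R` is the étale cohomology with coefficients in an algebraic
closure of `ℚ_ℓ`.  The structures `TrivialIdeal`, `AbelJacobi` (for `m = 0`) and `Regulator` (for `m ≠ 0`, the
index set `ι` is the set of nonzero integers) record what is used: homologically trivial
correspondences form a tensor ideal and act as zero on `S_m`, and the regulators are compatible with
correspondences.

Proof.  The law of the dimensions of the values of additive functors on the powers of `X` (`N64/AF` in the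
starting tree) is applied to the functors of the kernels and of the cokernels.
-/

set_option autoImplicit false

open CategoryTheory MonoidalCategory Filter
open scoped ENNReal
open Pool.Agent.Y112.SR Pool.Agent.Y112.KD Pool.Agent.N64.AF Pool.Agent.Run7.h184.AJ
open Pool.Agent.Run7.h184.REG

namespace Pool.Agent.Results.MP_76188c_nt.RegulatorsOnPowers

universe v u w t

variable {C : Type u} [Category.{v} C] [Preadditive C] [MonoidalCategory C]
  [MonoidalPreadditive C] [SymmetricCategory C] [RightRigidCategory C]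
  {Λ : Type t} [Field Λ] [CharZero Λ] [Linear Λ C] [MonoidalLinear Λ C]
  {K : Type w} [Field K]

omit [MonoidalPreadditive C] [SymmetricCategory C] [RightRigidCategory C] [CharZero Λ]
  [MonoidalLinear Λ C] in
/-- The natural transformation `r` is an isomorphism at `Y`. -/
def IsoAt {M D : C ⥤ ModuleCat.{v} Λ} (r : M ⟶ D) (Y : C) : Prop :=
  Function.Injective (r.app Y) ∧ Function.Surjective (r.app Y)

/-- The law and the gap for the natural transformation `r` on the powers of `T`: the four limits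
`Nmot`, `Nst`, `Nker`, `Ncok`, and the bounds for the kernels and cokernels. -/
def Law (R : SuperRealisation C K) (T : C) {M D : C ⥤ ModuleCat.{v} Λ} (r : M ⟶ D)
    (Nker : ℕ∞) : Prop :=
  (∃ Nmot Nst Ncok : ℕ∞, RatioTo Λ T (fun n => dimE Λ (M.obj (tp T n))) Nmot ∧
    RatioTo Λ T (fun n => dimE Λ (D.obj (tp T n))) Nst ∧
    RatioTo Λ T (fun n => kerDim r (tp T n)) Nker ∧
    RatioTo Λ T (fun n => cokerDim r (tp T n)) Ncok ∧ Nmot + Ncok = Nst + Nker ∧
    (Nker = 0 ↔ ∀ n, Function.Injective (r.app (tp T n))) ∧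
    (Ncok = 0 ↔ ∀ n, Function.Surjective (r.app (tp T n)))) ∧
  ∀ a n : ℕ, 128 * (a + 1) ^ 2 * bt R T ^ (2 * a + 6) ≤ 2 * n →
    (¬ Function.Injective (r.app (tp T a)) → Large Λ R T n (kerDim r (tp T (2 * n)))) ∧
    (¬ Function.Surjective (r.app (tp T a)) → Large Λ R T n (cokerDim r (tp T (2 * n))))

/-- `Q1` for `Y`: the Abel–Jacobi map and all the regulators are isomorphisms. -/
def Q1 {R : SuperRealisation C K} {I : TrivialIdeal Λ R} {ι : Type*} (A : AbelJacobi I)
    (B : ι → Regulator I) (Y : C) : Prop :=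
  IsoAt A.aj Y ∧ ∀ m, IsoAt (B m).r Y

/-- The dimensions of the kernels, and those of the cokernels, of `r` on the powers of `T` are at most
`c ρ(n)` for infinitely many `n`, for some `c < 1`. -/
def Small (T : C) {M D : C ⥤ ModuleCat.{v} Λ} (r : M ⟶ D) : Prop :=
  ∃ c : ℝ≥0∞, c < 1 ∧
    (∃ᶠ n in atTop, ((kerDim r (tp T n) : ℕ∞) : ℝ≥0∞) ≤ c * numRank Λ (tp T n)) ∧
    ∃ᶠ n in atTop, ((cokerDim r (tp T n) : ℕ∞) : ℝ≥0∞) ≤ c * numRank Λ (tp T n)

omit [CharZero Λ] in
theorem zero_of_small {T : C} {a : ℕ → ℕ∞} {N : ℕ∞} (h : RatioTo Λ T a N) {c : ℝ≥0∞} (hc : c < 1)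
    (hs : ∃ᶠ n in atTop, ((a n : ℕ∞) : ℝ≥0∞) ≤ c * numRank Λ (tp T n)) : N = 0 := by
  by_contra hN
  have h1 : (1 : ℕ∞) ≤ N := Order.one_le_iff_pos.2 (pos_iff_ne_zero.2 hN)
  have h2 : (1 : ℝ≥0∞) ≤ (N : ℝ≥0∞) := by exact_mod_cast h1
  have h3 := h.eventually (lt_mem_nhds (lt_of_lt_of_le hc h2))
  obtain ⟨n, h4, h5⟩ := (hs.and_eventually h3).exists
  exact absurd (ENNReal.div_le_of_le_mul h4) (not_le.2 h5)

omit [CharZero Λ] in
theorem small_of_zero {T : C} {a : ℕ → ℕ∞} (h : RatioTo Λ T a 0) :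
    ∃ᶠ n in atTop, ((a n : ℕ∞) : ℝ≥0∞) ≤ (2⁻¹ : ℝ≥0∞) * numRank Λ (tp T n) := by
  have h0 : (((0 : ℕ∞)) : ℝ≥0∞) < 2⁻¹ := by simp
  refine (h.eventually (gt_mem_nhds h0)).frequently.mono fun n hn => ?_
  exact (ENNReal.div_le_iff_le_mul (Or.inr (by simp)) (Or.inl (ENNReal.natCast_ne_top _))).1 hn.le

omit [CharZero Λ] in
theorem small_iff {R : SuperRealisation C K} {T : C} {M D : C ⥤ ModuleCat.{v} Λ} {r : M ⟶ D}
    {Nker : ℕ∞} (h : Law R T r Nker) : Small T r ↔ ∀ n, IsoAt r (tp T n) := by
  obtain ⟨⟨Nmot, Nst, Ncok, -, -, h3, h4, -, h5, h6⟩, -⟩ := h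
  constructor
  · rintro ⟨c, hc, h7, h8⟩
    exact fun n => ⟨h5.1 (zero_of_small h3 hc h7) n, h6.1 (zero_of_small h4 hc h8) n⟩
  · intro h7
    have e1 : Nker = 0 := h5.2 fun n => (h7 n).1
    have e2 : Ncok = 0 := h6.2 fun n => (h7 n).2
    subst e1 e2
    exact ⟨2⁻¹, by simp, small_of_zero h3, small_of_zero h4⟩

/-- The `ℓ`-adic regulators of all powers of a variety: the law of the dimensions of the kernels and
cokernels, the gap, the criterion for `Q1`, and the nilpotence of the homologically trivial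
correspondences. -/
theorem result [IsAlgClosed K] [Algebra Λ K] {R : SuperRealisation C K} {I : TrivialIdeal Λ R}
    {ι : Type*} (A : AbelJacobi I) (B : ι → Regulator I) (T : C) [ExactPairing T T]
    (h : IsPow Λ R T) :
    (∃ Nker : ℕ∞, Law R T A.aj Nker ∧ ∀ k : ℕ, Nker = k → I.Nilpotent T (k + 2)) ∧
    (∀ m, ∃ Nker : ℕ∞, Law R T (B m).r Nker ∧
      ∀ k : ℕ, Nker = k → (B m).NilpotentAction T (k + 1)) ∧
    ((∀ n, Q1 A B (tp T n)) ↔ Small T A.aj ∧ ∀ m, Small T (B m).r) := by
  have h1 : ∃ Nker : ℕ∞, Law R T A.aj Nker ∧ ∀ k : ℕ, Nker = k → I.Nilpotent T (k + 2) := by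
    obtain ⟨⟨Nch, Nsel, Nker, Ncok, a1, a2, a3, a4, a5, a6, a7, a8⟩, a9⟩ := A.main h
    exact ⟨Nker, ⟨⟨Nch, Nsel, Ncok, a1, a2, a3, a4, a5, a6, a7⟩, a9⟩, a8⟩
  have h2 : ∀ m, ∃ Nker : ℕ∞, Law R T (B m).r Nker ∧
      ∀ k : ℕ, Nker = k → (B m).NilpotentAction T (k + 1) := by
    intro m
    obtain ⟨⟨Nch, Nsel, Nker, Ncok, a1, a2, a3, a4, a5, a6, a7, a8⟩, a9⟩ := (B m).main h
    exact ⟨Nker, ⟨⟨Nch, Nsel, Ncok, a1, a2, a3, a4, a5, a6, a7⟩, a9⟩, a8⟩
  refine ⟨h1, h2, ?_⟩
  obtain ⟨N1, h3, -⟩ := h1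
  choose N2 h4 using h2
  rw [small_iff h3]
  constructor
  · intro h5
    exact ⟨fun n => (h5 n).1, fun m => (small_iff (h4 m).1).2 fun n => (h5 n).2 m⟩
  · rintro ⟨h5, h6⟩ n
    exact ⟨h5 n, fun m => (small_iff (h4 m).1).1 (h6 m) n⟩

end Pool.Agent.Results.MP_76188c_nt.RegulatorsOnPowers
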